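import Pool.Agent.Run7.h128.PI.Maps2

set_option autoImplicit false

/-!
# Permutation-equivariant maps of matrices are computed by `O(m ^ 2)` operations or as hard as matrix
multiplication

Circuits (`Circuit`, `Circuit.poly`, `Circuit.nonscalarCount`, `Circuit.size`) are defined in
`Pool.Agent.H522R2.Circuit`; `trank`, `omega`, `growth`, `sizeMM` and `Superlinear` in
`Pool.Agent.W956.KF.Defs`; `NoIso`, `und`, `IsForest`, `homPoly`, `ForestSpan` and `PermInv` in
`Run7.h128.PI.Hom`; `permSize` in `Run7.h128.PI.Main2`; `contr` and `Equivariant` in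
`Run7.h128.PI.Maps`; `mapSize` in `Run7.h128.PI.Maps2`.
-/

namespace Pool.Agent.Results.MP_e72dc0_lc.EquivariantMaps

open Pool.Agent.H522R2 Pool.Agent.W956.KF Run7.h128.PI

/-- Let `K` be a field of characteristic 0, and let `trank K n n n` be the rank of the tensor of
`n × n` matrix multiplication over `K`. `F : (K^{m × m})^s → K^{m × m}` is a polynomial map of degree
at most `d` which commutes with the simultaneous permutations of the rows and the columns. It is
called of forest type if the polynomial `contr F = ∑ y_{ij} F_{ij}` in `s + 1` matrices of variables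
is a linear combination of homomorphism polynomials of directed multigraphs, with at most `d + 1`
arcs labelled by the `s + 1` matrices, whose underlying simple graphs are forests.

(1) If `F` is not of forest type, then every circuit which computes the entries of `F` has at least
`trank K n n n / 6` nonscalar multiplications, for all `n` with `6 (d + 1) (n + 1) ≤ m`.
(2) If `F` is of forest type, then there is a circuit of size `O(m ^ 2)` which computes the entries
of `F`; the constant depends on `s` and `d` only.
(3) Let `s ≥ 1` and `d ≥ 2`. The least size of a circuit for some `F` which is not of forest type is at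
most the size of the smallest circuit for `m × m` matrix multiplication if `m ≥ 18`, and its growth
exponent is the exponent of matrix multiplication.
(4) Let `s ≥ 1` and `d ≥ 2`. There is a superlinear lower bound for matrix multiplication in the sense
of the question if and only if there is one which holds for all `F` which are not of forest type.
(5)-(8) The same for polynomials `f` of degree at most `d` (`d ≥ 3` in (7), (8)), in the entries of
`s` matrices, which are invariant under the simultaneous permutations of the rows and the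
columns. -/
theorem result (K : Type) [Field K] [CharZero K] (s d : ℕ) :
    ((∀ (m : ℕ) (F : Fin m → Fin m → MvPolynomial (Fin s × Fin m × Fin m) K), Equivariant F →
        (∀ i j, (F i j).totalDegree ≤ d) → contr F ∉ ForestSpan K (s + 1) (d + 1) m →
        ∀ C : Circuit K (Fin s × Fin m × Fin m),
          (∀ i j, ∃ v : Fin C.nodes, C.poly v = F i j) →
          ∀ n : ℕ, 6 * (d + 1) * (n + 1) ≤ m → trank K n n n ≤ 6 * C.nonscalarCount) ∧
      (∃ c : ℕ, ∀ (m : ℕ) (F : Fin m → Fin m → MvPolynomial (Fin s × Fin m × Fin m) K),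
        contr F ∈ ForestSpan K (s + 1) (d + 1) m →
        ∃ C : Circuit K (Fin s × Fin m × Fin m),
          (∀ i j, ∃ v : Fin C.nodes, C.poly v = F i j) ∧ C.size ≤ c * m ^ 2) ∧
      (1 ≤ s → 2 ≤ d → (∀ m : ℕ, 18 ≤ m → mapSize K s d m ≤ sizeMM K m) ∧
        growth (mapSize K s d) = omega K) ∧
      (1 ≤ s → 2 ≤ d → (Superlinear (sizeMM K) ↔
        ∃ α : ℝ, 1 < α ∧ ∃ c : ℝ, 0 < c ∧ ∀ (m : ℕ)
          (F : Fin m → Fin m → MvPolynomial (Fin s × Fin m × Fin m) K), Equivariant F →
          (∀ i j, (F i j).totalDegree ≤ d) → contr F ∉ ForestSpan K (s + 1) (d + 1) m →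
          ∀ C : Circuit K (Fin s × Fin m × Fin m),
            (∀ i j, ∃ v : Fin C.nodes, C.poly v = F i j) →
            c * ((m : ℝ) ^ 2) ^ α ≤ C.size))) ∧
    ((∀ (m : ℕ) (f : MvPolynomial (Fin s × Fin m × Fin m) K), PermInv f → f.totalDegree ≤ d →
        f ∉ ForestSpan K s d m →
        ∀ (C : Circuit K (Fin s × Fin m × Fin m)) (v : Fin C.nodes), C.poly v = f →
          ∀ n : ℕ, 6 * d * (n + 1) ≤ m → trank K n n n ≤ 6 * C.nonscalarCount) ∧
      (∃ c : ℕ, ∀ (m : ℕ) (f : MvPolynomial (Fin s × Fin m × Fin m) K), f ∈ ForestSpan K s d m →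
        ∃ (C : Circuit K (Fin s × Fin m × Fin m)) (v : Fin C.nodes), C.poly v = f ∧
          C.size ≤ c * m ^ 2) ∧
      (1 ≤ s → 3 ≤ d → (∀ m : ℕ, 18 ≤ m → permSize K s d m ≤ sizeMM K m + 2 * m ^ 2) ∧
        growth (permSize K s d) = omega K) ∧
      (1 ≤ s → 3 ≤ d → (Superlinear (sizeMM K) ↔
        ∃ α : ℝ, 1 < α ∧ ∃ c : ℝ, 0 < c ∧ ∀ (m : ℕ)
          (f : MvPolynomial (Fin s × Fin m × Fin m) K), PermInv f → f.totalDegree ≤ d →
          f ∉ ForestSpan K s d m →
          ∀ (C : Circuit K (Fin s × Fin m × Fin m)) (v : Fin C.nodes), C.poly v = f →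
            c * ((m : ℝ) ^ 2) ^ α ≤ C.size))) :=
  ⟨⟨fun _ _ hF hd hn C hC _ hm => map_lower hF hd hn hm C hC, map_upper s d,
      fun hs hd => ⟨fun _ hm => mapSize_le hs hd hm, by
        rw [omega_eq]
        exact growth_mapSize hs hd⟩,
      fun hs hd => superlinear_map hs hd⟩,
    ⟨fun _ _ hf hd hn C v hv _ hm => perm_lower hf hd hn hm C v hv, forest_upper s d,
      fun hs hd => ⟨fun _ hm => (permSize_le hs hd hm).1, by
        rw [omega_eq]
        exact growth_permSize hs hd⟩,
      fun hs hd => superlinear_perm hs hd⟩⟩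

end Pool.Agent.Results.MP_e72dc0_lc.EquivariantMaps
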