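import Pool.Agent.Run7.h566.MM.NetV

/-!
# Matrix multiplication by networks of smooth gates of different sizes

`Aff`, `IsNet`, `Network`, `Network.Gives` are in `Pool.Agent.Run7.h566.MM.NetV`, `Pairs` is in
`Pool.Agent.Y538.Net.Defs`, the exponent `omega` in `Pool.Agent.H515R2.MMR.Rank`.
-/

set_option autoImplicit false

namespace Pool.Agent.Results.MP_e72dc0_lc.GateSizes

open Finset Pool.Agent.H515R2.MMR Pool.Agent.Y538.Net Pool.Agent.Run7.h566.NetV

/-- A network consists of gates; the gate number `l` is an arbitrary map `𝕜 ^ (m l) → 𝕜 ^ (m l)`,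
twice continuously differentiable at the values that occur; linear operations are free. There are
countably many networks `N 0, N 1, …`. For all pairs of `n × n` matrices outside a meagre set each
network which gives the product of the two matrices satisfies `∑ (m l) ^ (2 ω / 3) ≥ n ^ ω`, the sum
over its gates. Here `𝕜` is any nontrivially normed field which can be embedded into `ℂ` as a
field, for example `ℝ` or `ℂ`. -/
theorem result (𝕜 : Type) [NontriviallyNormedField 𝕜] (σ : 𝕜 →+* ℂ) {n : ℕ} (hn : 1 ≤ n)
    (N : ℕ → Network 𝕜 n) :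
    IsMeagre {x : Pairs 𝕜 n | ∃ w, (N w).Gives x ∧
      ∑ l ∈ range (N w).L, ((N w).m l : ℝ) ^ (2 * omega / 3) < (n : ℝ) ^ omega} := by
  by_contra hcon
  obtain ⟨w, x, hw, hx, hev⟩ := exists_open N
    (fun w => ∑ l ∈ range (N w).L, ((N w).m l : ℝ) ^ (2 * omega / 3) < (n : ℝ) ^ omega) hcon
  exact absurd (bound σ hn (N w) hx hev) (not_le.mpr hw)

end Pool.Agent.Results.MP_e72dc0_lc.GateSizes
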