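import Pool.Agent.Run7.h151.GB.Fin

/-!
# Simultaneous triple products in groups with a large subgroup of bounded exponent

In the group-theoretic approach of Cohn and Umans a family of triples of subsets of a finite group
`G` with the simultaneous triple product property gives fast multiplication of matrices, provided
that the sum of the `(|A||B||C|) ^ (ω/3)` exceeds the sum of the `ω`-th powers of the dimensions of
the irreducible representations. If `G` has a large subgroup `H` of bounded exponent whose Sylow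
subgroups have bounded derived length, this cannot happen for `ω` near `2`.
-/

set_option autoImplicit false

namespace Pool.Agent.Results.MP_e72dc0_lc.GroupBarrier

open Pool.Agent.N726.BG (STPP)

theorem result (m : ℕ) (hm : 0 < m) (r : ℕ) : ∃ ε : ℝ, 0 < ε ∧
    ∀ (G : Type) [Group G] [Finite G] (H : Subgroup G), (∀ x ∈ H, x ^ m = 1) →
    (∀ p : ℕ, p.Prime → ∀ P : Sylow p H, derivedSeries P r = ⊥) →
    ∀ (I : Type) [Fintype I] (A B C : I → Finset G), STPP A B C →
    (∑ i, (((A i).card * (B i).card * (C i).card : ℕ) : ℝ) ^ ((2 : ℝ) / 3)) *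
      (Nat.card H : ℝ) ^ ε ≤ Nat.card G ∧
    ∀ (n : ℕ) (d : Fin n → ℕ),
      Nonempty (MonoidAlgebra ℂ G ≃ₐ[ℂ] ∀ j, Matrix (Fin (d j)) (Fin (d j)) ℂ) →
      ∀ K ω : ℝ, 2 ≤ ω → (Nat.card (ConjClasses G) : ℝ) ≤ (Nat.card H : ℝ) ^ K →
        K * (ω - 2) ≤ ε * ω →
        ∑ i, (((A i).card * (B i).card * (C i).card : ℕ) : ℝ) ^ (ω / 3) ≤
          ∑ j, (d j : ℝ) ^ ω := by
  obtain ⟨ε, hε, h⟩ := Run7.h151.GB.sylow_saving m hm r
  refine ⟨ε, hε, fun G _ _ H hexp hsyl I _ A B C hABC => ?_⟩
  have h1 := h G H hexp hsyl I A B C hABC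
  refine ⟨h1, fun n d hd K ω hω hk hK => ?_⟩
  have hH : (1 : ℝ) ≤ (Nat.card H : ℝ) := by exact_mod_cast Nat.card_pos
  exact Run7.h151.GB.classes_of_saving hH h1 hd hω hk hK

end Pool.Agent.Results.MP_e72dc0_lc.GroupBarrier
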