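import Pool.Agent.Run7.h432.ME.Grow

set_option autoImplicit false

/-!
# One entry of a polynomial in a matrix

Third derivatives at a diagonalisable point show that a circuit which computes one entry of `p(X)`,
or the trace of `W p(X)` for a constant matrix `W` that is not scalar, contains a multiplication of
matrices.
-/

namespace Pool.Agent.Results.MP_e72dc0_lc.OneEntry

open Pool.Agent.H522R2 Pool.Agent.H522R2.Circuit Pool.Agent.W956.KF Run7.h432.ME

theorem result :
    -- (1) one linear combination of the entries of `p(X)`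
    (∀ (K : Type) [Field K] [Infinite K] (n r q : ℕ) (p : Polynomial K),
      2 * r + 2 * q ≤ n → r + 2 ≤ p.natDegree →
      ∀ W : Matrix (Fin n) (Fin n) K, (∀ c : K, W ≠ Matrix.scalar (Fin n) c) →
      ∀ (C : Circuit K (Fin n × Fin n)) (v : Fin C.nodes),
        C.poly v = Matrix.trace (W.map MvPolynomial.C *
          Polynomial.aeval (Matrix.mvPolynomialX (Fin n) (Fin n) K) p) →
        trank K r q q ≤ 6 * C.nonscalarCount) ∧
    -- (2) one entry of `p(X)`
    (∀ (K : Type) [Field K] [Infinite K] (n r q : ℕ) (p : Polynomial K),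
      2 * r + 2 * q ≤ n → r + 2 ≤ p.natDegree →
      ∀ (i j : Fin n) (C : Circuit K (Fin n × Fin n)) (v : Fin C.nodes),
        C.poly v = Polynomial.aeval (Matrix.mvPolynomialX (Fin n) (Fin n) K) p i j →
        trank K r q q ≤ 6 * C.nonscalarCount) ∧
    -- (3) the upper bound
    (∀ (K : Type) [Field K] (m c : ℕ) (p : Polynomial K), p.natDegree ≤ c * m →
      ∀ i j : Fin m, ∃ (C : Circuit K (Fin m × Fin m)) (v : Fin C.nodes),
        C.poly v = Polynomial.aeval (Matrix.mvPolynomialX (Fin m) (Fin m) K) p i j ∧
        C.size ≤ (4 * Nat.log 2 m + c + 2) * sizeMM K m + 4 * (c + 1) * m ^ 2) ∧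
    -- (4) exponents and superlinear lower bounds
    (∀ (K : Type) [Field K] [Infinite K] (c : ℕ) (p : ℕ → Polynomial K),
      (∀ m, 1 ≤ m → 2 ≤ (p m).natDegree ∧ m ≤ c * (p m).natDegree ∧
        (p m).natDegree ≤ c * m) →
      growth (fun m => entrySize K m (p m)) = omega K ∧
      (Superlinear (sizeMM K) ↔ Superlinear fun m => entrySize K m (p m))) := by
  refine ⟨?_, ?_, ?_, ?_⟩
  · intro K _ _ n r q p hn hr W hW C v hv
    exact trank_combination hn p hr W hW C v hv
  · intro K _ _ n r q p hn hr i j C v hv
    exact trank_entry hn p hr i j C v hv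
  · intro K _ m c p hp i j
    exact exists_circuit_entry (Nat.lt_of_le_of_lt (Nat.zero_le _) i.2) c p hp i j
  · intro K _ _ c p h
    have hL : LinDeg c p := by
      refine ⟨fun m hm => (h m hm).1, fun m => ?_, fun m hm => (h m hm).2.2⟩
      rcases Nat.eq_zero_or_pos m with hm | hm
      · omega
      · exact (h m hm).2.1
    refine ⟨entry_growth hL, ?_⟩
    rw [superlinear_sizeMM, entry_superlinear hL]

end Pool.Agent.Results.MP_e72dc0_lc.OneEntry
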